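import Pool.Agent.K4H66.DM2.G

set_option autoImplicit false

/-!
# Shifted moments of zeta and mean squares of derivatives

Q1 for `k` (all real shifts) holds if and only if the mean squares of all derivatives of `ζ(1/2+it)^k` have their
random matrix values, and it is enough to know this for the moment itself and for the derivatives of orders in
one set of positive integers with divergent sum of reciprocals.
-/

namespace Pool.Agent.Results.MP_069854_nt.DerivativeMoments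

open Complex MeasureTheory Filter Topology Set Pool.Agent.TH535.SM Pool.Agent.R446.KR Pool.Agent.K4H66.OL
  Pool.Agent.K4H66.HL Pool.Agent.K4H66.LP Pool.Agent.K4H66.DM2
open scoped ComplexConjugate Matrix ContDiff

/-- `∫_A^B ζ(1/2 + iα/log T + it)^k ζ(1/2 + iα/log T - it)^k dt` -/
noncomputable def shifted (k : ℕ) (α T A B : ℝ) : ℂ :=
  ∫ t in A..B, riemannZeta (1 / 2 + I * α / Real.log T + I * t) ^ k *
    riemannZeta (1 / 2 + I * α / Real.log T - I * t) ^ k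

/-- The normalised shifted moment `Q_k(α,T)` of the problem. -/
noncomputable def Q (k : ℕ) (α T : ℝ) : ℂ :=
  (T : ℂ)⁻¹ * ((Real.log T : ℂ) ^ (k ^ 2))⁻¹ * shifted k α T 0 T

/-- The normalised Haar measure `dU` of `U(N)`. -/
noncomputable def haar (N : ℕ) : Measure (Matrix.unitaryGroup (Fin N) ℂ) := Measure.haarMeasure ⊤

/-- The matrix integral `W_k(α,N)` of the problem. -/
noncomputable def W (k : ℕ) (α : ℝ) (N : ℕ) : ℂ :=
  ((N : ℂ) ^ (k ^ 2))⁻¹ * ∫ U : Matrix.unitaryGroup (Fin N) ℂ,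
    (1 - cexp (-(I * α / N)) • (U : Matrix (Fin N) (Fin N) ℂ)).det ^ k *
      (1 - cexp (-(I * α / N)) • (U : Matrix (Fin N) (Fin N) ℂ)ᴴ).det ^ k ∂(haar N)

/-- The number `d_k(n)` of ordered factorisations of `n` into `k` positive factors. -/
def dk (k n : ℕ) : ℕ := (Nat.finMulAntidiag k n).card

/-- The arithmetic constant `a_k`. -/
noncomputable def ak (k : ℕ) : ℝ := ∏' p : Nat.Primes, (1 - 1 / (p : ℝ)) ^ (k ^ 2) *
  ∑' m : ℕ, (dk k ((p : ℕ) ^ m) : ℝ) ^ 2 / (p : ℝ) ^ m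

/-- `V_j(T) = ∫_0^T |(d/dt)^j ζ(1/2+it)^k|² dt`; for `j = 0` this is the `2k`-th moment of zeta. -/
noncomputable def zetaD (k j : ℕ) (T : ℝ) : ℝ :=
  ∫ t in (0:ℝ)..T, ‖iteratedDeriv j (fun x : ℝ => riemannZeta (1 / 2 + I * x) ^ k) t‖ ^ 2

/-- `w_j(N) = N^(-k²-2j) ∫_(U(N)) |(d/dθ)^j det(1 - e^{iθ}U)^k|² dU`, the derivative being taken at `θ = 0`. -/
noncomputable def matrixD (k j N : ℕ) : ℝ := ((N : ℝ) ^ (k ^ 2 + 2 * j))⁻¹ *
  ∫ U : Matrix.unitaryGroup (Fin N) ℂ, ‖iteratedDeriv j (fun θ : ℝ =>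
    (1 - cexp (θ * I) • (U : Matrix (Fin N) (Fin N) ℂ)).det ^ k) 0‖ ^ 2 ∂(haar N)

/-- The `j`-th derivative moment of zeta has its random matrix value: `V_j(T)/(T log^(k²+2j) T) → a_k w_j`, where
`w_j` is the limit of `w_j(N)`. -/
def DerivMoment (k j : ℕ) : Prop := ∃ w : ℝ, Tendsto (fun N : ℕ => matrixD k j N) atTop (𝓝 w) ∧
  Tendsto (fun T : ℝ => zetaD k j T / (T * Real.log T ^ (k ^ 2 + 2 * j))) atTop (𝓝 (ak k * w))

lemma ak_eq (k : ℕ) : ak k = H306R2.aF k := by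
  unfold ak H306R2.aF
  refine tprod_congr fun p => ?_
  have h1 : (1 - 1 / ((p : ℕ) : ℝ)) ^ ((k : ℝ) ^ 2) = (1 - 1 / ((p : ℕ) : ℝ)) ^ (k ^ 2) := by
    rw [← Real.rpow_natCast _ (k ^ 2)]
    push_cast
    rfl
  rw [h1]
  congr 1
  refine tsum_congr fun m => ?_
  have h2 : (dk k ((p : ℕ) ^ m) : ℝ) = H306R2.lc k m := by
    have h3 := W182.KO.dk_eq k ((p : ℕ) ^ m)
    rw [H306R2.dv_prime_pow _ p.2] at h3
    exact h3
  rw [h2, one_div, inv_pow, div_eq_mul_inv]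

lemma zr_zk (k : ℕ) : zr k 0 = zk k := by
  funext t
  unfold zr zk ze
  simp

lemma shifted_eq (k : ℕ) (α T A B : ℝ) : shifted k α T A B =
    ∫ t in A..B, zr k 0 (t + α / Real.log T) * conj (zr k 0 (t + -(α / Real.log T))) := by
  unfold shifted
  refine intervalIntegral.integral_congr fun t _ => ?_
  beta_reduce
  rw [zr_zk]
  unfold zk ze
  have e0 : (I * α / Real.log T : ℂ) = I * ((α / Real.log T : ℝ) : ℂ) := by push_cast; ring
  have e1 : (1 / 2 + I * ((α / Real.log T : ℝ) : ℂ) + I * t : ℂ) =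
      1 / 2 + ((t + α / Real.log T : ℝ) : ℂ) * I := by push_cast; ring
  have e2 : (1 / 2 + I * ((α / Real.log T : ℝ) : ℂ) - I * t : ℂ) =
      conj (1 / 2 + ((t + -(α / Real.log T) : ℝ) : ℂ) * I) := by
    rw [map_add, map_mul, conj_I, Complex.conj_ofReal, map_div₀, map_one, map_ofNat]
    push_cast
    ring
  rw [e0, e1, e2, riemannZeta_conj, map_pow]

lemma Q_eq (k : ℕ) (α T : ℝ) : Q k α T = Xs k α T := by
  unfold Q Xs
  rw [shifted_eq]
  unfold Cor NN
  rw [Complex.ofReal_mul, Complex.ofReal_pow, ← mul_inv]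
  exact (div_eq_inv_mul _ _).symm

lemma zetaD_eq (k j : ℕ) (T : ℝ) : zetaD k j T = K4H66.DM2.V k j T := by
  unfold zetaD K4H66.DM2.V
  have e : (fun x : ℝ => riemannZeta (1 / 2 + I * x) ^ k) = zr k 0 := by
    rw [zr_zk]
    funext x
    unfold zk ze
    rw [mul_comm I]
  rw [e]

lemma matrixD_eq (k j N : ℕ) : matrixD k j N = mtD k j N := rfl

lemma dm_iff {k j : ℕ} {w : ℝ} (hw : Tendsto (fun N : ℕ => matrixD k j N) atTop (𝓝 w)) :
    DerivMoment k j ↔
      Tendsto (fun T : ℝ => K4H66.DM2.V k j T / NN (k ^ 2 + 2 * j) T) atTop (𝓝 (ak k * w)) := by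
  constructor
  · rintro ⟨w', hw', h⟩
    rw [← tendsto_nhds_unique hw' hw]
    refine h.congr fun T => ?_
    rw [zetaD_eq]
    rfl
  · intro h
    refine ⟨w, hw, h.congr fun T => ?_⟩
    rw [zetaD_eq]
    rfl

/-- Let `k` be a natural number for which the limits `𝒲(α)` of `W_k(α,N)`, `N → ∞`, exist for all real `α`. Then
`w_j(N)` has a limit `w_j` for every `j`, and for every set `S` of positive integers with `Σ_(j ∈ S) 1/j = ∞` the
following are equivalent: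
(a) `Q_k(α,T) → a_k 𝒲(α)` for all real `α` (Q1 for `k`);
(b) `V_j(T)/(T log^(k²+2j) T) → a_k w_j` for every `j ≥ 0`;
(c) the same for `j = 0` and for the `j` in `S`. -/
theorem result (k : ℕ) (𝒲 : ℝ → ℂ) (hW : ∀ α : ℝ, Tendsto (fun N : ℕ => W k α N) atTop (𝓝 (𝒲 α))) :
    (∀ j : ℕ, ∃ w : ℝ, Tendsto (fun N : ℕ => matrixD k j N) atTop (𝓝 w)) ∧
    ∀ S : Set ℕ, (∀ j ∈ S, 1 ≤ j) → ¬ Summable (fun j : S => 1 / ((j : ℕ) : ℝ)) →
      List.TFAE [∀ α : ℝ, Tendsto (fun T : ℝ => Q k α T) atTop (𝓝 (ak k * 𝒲 α)),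
        ∀ j : ℕ, DerivMoment k j,
        ∀ j : ℕ, j = 0 ∨ j ∈ S → DerivMoment k j] := by
  have hW' : ∀ α : ℝ, Tendsto (fun N : ℕ => Wk k α N) atTop (𝓝 (𝒲 α)) := hW
  have hex : ∀ j : ℕ, ∃ w : ℝ, Tendsto (fun N : ℕ => matrixD k j N) atTop (𝓝 w) := fun j => mtD_exists hW' j
  refine ⟨hex, fun S hS hsum => ?_⟩
  tfae_have 1 → 2 := by
    intro hQ j
    obtain ⟨w, hw⟩ := hex j
    rw [dm_iff hw]
    exact fwd hW' (fun α => (hQ α).congr fun T => Q_eq k α T) j hw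
  tfae_have 2 → 3 := fun h j _ => h j
  tfae_have 3 → 1 := by
    intro h α
    simp only [Q_eq]
    refine bwd hW' hS (by simpa only [one_div] using hsum) (fun j hj w hw => ?_) α
    exact (dm_iff hw).1 (h j hj.symm)
  tfae_finish

end Pool.Agent.Results.MP_069854_nt.DerivativeMoments
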