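import Pool.Agent.K4H66.LP.F

set_option autoImplicit false

/-!
# Shifted moments of zeta and mean squares of long Dirichlet polynomials

For `k ≥ 2`: Q1 for `k` holds if and only if the mean squares of all smooth Dirichlet polynomials with the
coefficients `d_k(n)`, of every length `T^θ`, have their random matrix values, the mean squares over `U(N)` of
the powers `det(1 - U)^k` of the characteristic polynomial with the same cut-off.
-/

namespace Pool.Agent.Results.MP_069854_nt.LongPolynomials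

open Complex MeasureTheory Filter Topology Set Pool.Agent.TH535.SM Pool.Agent.R446.KR Pool.Agent.K4H66.OL
  Pool.Agent.K4H66.HL Pool.Agent.K4H66.LP
open scoped ComplexConjugate Matrix ContDiff

/-- `∫_A^B ζ(1/2 + iα/log T + it)^k ζ(1/2 + iα/log T - it)^k dt` -/
noncomputable def shifted (k : ℕ) (α T A B : ℝ) : ℂ :=
  ∫ t in A..B, riemannZeta (1 / 2 + I * α / Real.log T + I * t) ^ k *
    riemannZeta (1 / 2 + I * α / Real.log T - I * t) ^ k

/-- The normalised shifted moment `Q_k(α,T)` of the problem. -/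
noncomputable def Q (k : ℕ) (α T : ℝ) : ℂ :=
  (T : ℂ)⁻¹ * ((Real.log T : ℂ) ^ (k ^ 2))⁻¹ * shifted k α T 0 T

/-- The normalised Haar measure `dU` of `U(N)`. -/
noncomputable def haar (N : ℕ) : Measure (Matrix.unitaryGroup (Fin N) ℂ) := Measure.haarMeasure ⊤

/-- The matrix integral `W_k(α,N)` of the problem. -/
noncomputable def W (k : ℕ) (α : ℝ) (N : ℕ) : ℂ :=
  ((N : ℂ) ^ (k ^ 2))⁻¹ * ∫ U : Matrix.unitaryGroup (Fin N) ℂ,
    (1 - cexp (-(I * α / N)) • (U : Matrix (Fin N) (Fin N) ℂ)).det ^ k *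
      (1 - cexp (-(I * α / N)) • (U : Matrix (Fin N) (Fin N) ℂ)ᴴ).det ^ k ∂(haar N)

/-- The number `d_k(n)` of ordered factorisations of `n` into `k` positive factors. -/
def dk (k n : ℕ) : ℕ := (Nat.finMulAntidiag k n).card

/-- The arithmetic constant `a_k`. -/
noncomputable def ak (k : ℕ) : ℝ := ∏' p : Nat.Primes, (1 - 1 / (p : ℝ)) ^ (k ^ 2) *
  ∑' m : ℕ, (dk k ((p : ℕ) ^ m) : ℝ) ^ 2 / (p : ℝ) ^ m

/-- Cut-offs: smooth functions of compact support. -/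
def Cutoff (φ : ℝ → ℂ) : Prop := ContDiff ℝ ∞ φ ∧ HasCompactSupport φ

/-- The Dirichlet polynomial `D(T,t) = Σ_n d_k(n) φ(log n / log T) n^(-1/2 - it)`. -/
noncomputable def D (φ : ℝ → ℂ) (k : ℕ) (T t : ℝ) : ℂ :=
  ∑' n : ℕ, (dk k n : ℂ) * φ (Real.log n / Real.log T) * (n : ℂ) ^ (-(1 / 2 + I * t) : ℂ)

/-- The power `det(1 - U)^k` with the cut-off `φ`: the sum of `c_m(U) φ(m/N)`, where `c_m(U)` is the coefficient of
`X^m` in `det(1 - XU)^k`, `0 ≤ m ≤ kN`. -/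
noncomputable def P (φ : ℝ → ℂ) (k N : ℕ) (U : Matrix (Fin N) (Fin N) ℂ) : ℂ :=
  ∑ m ∈ Finset.range (k * N + 1), (U.charpolyRev ^ k).coeff m * φ ((m : ℝ) / N)

/-- `∫_T^(2T) |D(T,t)|² dt` -/
noncomputable def zetaSq (φ : ℝ → ℂ) (k : ℕ) (T : ℝ) : ℝ := ∫ t in T..(2 * T), ‖D φ k T t‖ ^ 2

/-- `N^(-k²) ∫_(U(N)) |P(U)|² dU` -/
noncomputable def matrixSq (φ : ℝ → ℂ) (k N : ℕ) : ℝ := ((N : ℝ) ^ (k ^ 2))⁻¹ *
  ∫ U : Matrix.unitaryGroup (Fin N) ℂ, ‖P φ k N (U : Matrix (Fin N) (Fin N) ℂ)‖ ^ 2 ∂(haar N)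

/-- In each `[X,2X]`, `X ≥ X₀`, the property holds off a set of measure at most `C √X log X`. -/
def Mostly (p : ℝ → Prop) : Prop :=
  ∃ C X₀ : ℝ, ∀ X : ℝ, X₀ ≤ X → ∃ E : Set ℝ, MeasurableSet E ∧ E ⊆ Icc X (2 * X) ∧
    volume E ≤ ENNReal.ofReal (C * (√X * Real.log X)) ∧ ∀ T ∈ Icc X (2 * X) \ E, p T

lemma ak_eq (k : ℕ) : ak k = H306R2.aF k := by
  unfold ak H306R2.aF
  refine tprod_congr fun p => ?_
  have h1 : (1 - 1 / ((p : ℕ) : ℝ)) ^ ((k : ℝ) ^ 2) = (1 - 1 / ((p : ℕ) : ℝ)) ^ (k ^ 2) := by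
    rw [← Real.rpow_natCast _ (k ^ 2)]
    push_cast
    rfl
  rw [h1]
  congr 1
  refine tsum_congr fun m => ?_
  have h2 : (dk k ((p : ℕ) ^ m) : ℝ) = H306R2.lc k m := by
    have h3 := W182.KO.dk_eq k ((p : ℕ) ^ m)
    rw [H306R2.dv_prime_pow _ p.2] at h3
    exact h3
  rw [h2, one_div, inv_pow, div_eq_mul_inv]

lemma zr_zk (k : ℕ) : zr k 0 = zk k := by
  funext t
  unfold zr zk ze
  simp

lemma shifted_eq (k : ℕ) (α T A B : ℝ) : shifted k α T A B =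
    ∫ t in A..B, zr k 0 (t + α / Real.log T) * conj (zr k 0 (t + -(α / Real.log T))) := by
  unfold shifted
  refine intervalIntegral.integral_congr fun t _ => ?_
  beta_reduce
  rw [zr_zk]
  unfold zk ze
  have e0 : (I * α / Real.log T : ℂ) = I * ((α / Real.log T : ℝ) : ℂ) := by push_cast; ring
  have e1 : (1 / 2 + I * ((α / Real.log T : ℝ) : ℂ) + I * t : ℂ) =
      1 / 2 + ((t + α / Real.log T : ℝ) : ℂ) * I := by push_cast; ring
  have e2 : (1 / 2 + I * ((α / Real.log T : ℝ) : ℂ) - I * t : ℂ) =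
      conj (1 / 2 + ((t + -(α / Real.log T) : ℝ) : ℂ) * I) := by
    rw [map_add, map_mul, conj_I, Complex.conj_ofReal, map_div₀, map_one, map_ofNat]
    push_cast
    ring
  rw [e0, e1, e2, riemannZeta_conj, map_pow]

lemma Q_eq (k : ℕ) (α T : ℝ) : Q k α T = Xs k α T := by
  unfold Q Xs
  rw [shifted_eq]
  unfold Cor NN
  rw [Complex.ofReal_mul, Complex.ofReal_pow, ← mul_inv]
  exact (div_eq_inv_mul _ _).symm

lemma window_eq (k : ℕ) (α T : ℝ) : shifted k α T T (2 * T) = Qd (zr k 0) (α / Real.log T) T := by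
  rw [shifted_eq, Qd_eq (zdat k (u := 1) le_rfl).zc]

lemma ro_eq (k : ℕ) (α : ℝ) : cexp (I * k * α) = ro k α := by
  unfold ro
  congr 1
  push_cast
  ring

/-- the moment is an integral of `|ζ|^(2k)` -/
lemma M_eq (k : ℕ) (T : ℝ) : M (zr k 0) T = ∫ t in (0:ℝ)..T, ‖riemannZeta (1 / 2 + I * t)‖ ^ (2 * k) := by
  unfold M
  refine intervalIntegral.integral_congr fun t _ => ?_
  beta_reduce
  rw [zr_zk]
  unfold zk ze
  rw [norm_pow, ← pow_mul, mul_comm k 2, mul_comm (t : ℂ) I]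

lemma D_eq (φ : ℝ → ℂ) (k : ℕ) (T : ℝ) : zetaSq φ k T = mD φ k T := rfl

lemma matrixSq_eq (φ : ℝ → ℂ) (k N : ℕ) : matrixSq φ k N = oN k N (fun x => ‖φ x‖ ^ 2) := by
  rw [← Pt_ms]
  unfold matrixSq P Pt
  simp_rw [pp_rev]
  rfl

lemma mostly_of {k : ℕ} {F : ℝ → ℝ} {e : ℝ} (h : ∃ C X0 : ℝ, 0 ≤ C ∧ 4 ≤ X0 ∧ ∀ X : ℝ, X0 ≤ X → ∃ E : Set ℝ,
      MeasurableSet E ∧ E ⊆ Icc X (2 * X) ∧
      (volume : Measure ℝ).real E ≤ C * (√X * Real.log X) ∧ ∀ T ∈ Icc X (2 * X), T ∉ E →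
        |F T| ≤ e * M (zr k 0) (2 * T)) : Mostly fun T => 0 ≤ T ∧ |F T| ≤ e * M (zr k 0) (2 * T) := by
  obtain ⟨C, X0, hC, hX0, h⟩ := h
  refine ⟨C, X0, fun X hX => ?_⟩
  obtain ⟨E, a1, a2, a3, a4⟩ := h X hX
  refine ⟨E, a1, a2, ?_, fun T hT => ⟨by linarith [hT.1.1], a4 T hT.1 hT.2⟩⟩
  have hEf : volume E ≠ ⊤ := ne_top_of_le_ne_top
    (by rw [Real.volume_Icc]; exact ENNReal.ofReal_ne_top) (measure_mono a2)
  rw [← ENNReal.ofReal_toReal hEf]
  exact ENNReal.ofReal_le_ofReal a3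

lemma Mostly.and {p q : ℝ → Prop} (hp : Mostly p) (hq : Mostly q) : Mostly fun T => p T ∧ q T := by
  obtain ⟨C1, X1, h1⟩ := hp
  obtain ⟨C2, X2, h2⟩ := hq
  refine ⟨max C1 0 + max C2 0, max (max X1 X2) 1, fun X hX => ?_⟩
  have x0 : max X1 X2 ≤ X := (le_max_left _ _).trans hX
  have x1 : 1 ≤ X := (le_max_right _ _).trans hX
  have hs : 0 ≤ √X * Real.log X := mul_nonneg (Real.sqrt_nonneg _) (Real.log_nonneg x1)
  obtain ⟨E1, a1, a2, a3, a4⟩ := h1 X ((le_max_left _ _).trans x0)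
  obtain ⟨E2, b1, b2, b3, b4⟩ := h2 X ((le_max_right _ _).trans x0)
  refine ⟨E1 ∪ E2, a1.union b1, union_subset a2 b2, ?_, fun T hT => ?_⟩
  · refine (measure_union_le _ _).trans ((add_le_add a3 b3).trans ?_)
    rw [add_mul, ENNReal.ofReal_add (by positivity) (by positivity)]
    gcongr
    · exact le_max_left _ _
    · exact le_max_left _ _
  · exact ⟨a4 T ⟨hT.1, fun h => hT.2 (Or.inl h)⟩, b4 T ⟨hT.1, fun h => hT.2 (Or.inr h)⟩⟩

lemma Mostly.mono {p q : ℝ → Prop} (hp : Mostly p) (h : ∀ T, p T → q T) : Mostly q := by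
  obtain ⟨C, X0, h1⟩ := hp
  refine ⟨C, X0, fun X hX => ?_⟩
  obtain ⟨E, a1, a2, a3, a4⟩ := h1 X hX
  exact ⟨E, a1, a2, a3, fun T hT => h T (a4 T hT)⟩

/-- Let `k ≥ 2`.
(1) For every cut-off `φ` and `ε > 0` the same finite combination of shifted moments gives the mean square of
`D` over `[T,2T]` up to `ε ∫_0^(2T) |ζ|^(2k)`, for most `T`, and the mean square of `P` over `U(N)` up to
`ε |W_k(0,N)|`, for all `N ≥ 1`.
(2) Conversely, for every real `α` there are cut-offs `φ₁`, `φ₂` such that `e^{ikα}` times the shifted moment is a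
quarter of the difference of the mean squares for `φ₁` and `φ₂`: exactly for `U(N)`, and up to
`ε ∫_0^(2T) |ζ|^(2k)` for zeta, for most `T`.
(3) If the limits `𝒲(α)` of `W_k(α,N)` exist, then the mean square of `P` over `U(N)` has a limit for every cut-off,
and `Q_k(α,T) → a_k 𝒲(α)` for all real `α` (Q1 for `k`) if and only if, for every cut-off,
the mean square of `D` over `[T,2T]`, divided by `T log^(k²) T`, tends to `a_k` times that limit. -/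
theorem result (k : ℕ) (hk : 2 ≤ k) :
    (∀ φ : ℝ → ℂ, Cutoff φ → ∀ ε : ℝ, 0 < ε → ∃ (s : Finset ℤ) (β : ℤ → ℝ) (c : ℤ → ℂ),
      (Mostly fun T => |zetaSq φ k T - (∑ j ∈ s, c j * shifted k (β j) T T (2 * T)).re| ≤
        ε * ∫ t in (0:ℝ)..(2 * T), ‖riemannZeta (1 / 2 + I * t)‖ ^ (2 * k)) ∧
      ∀ N : ℕ, 1 ≤ N → |matrixSq φ k N - (∑ j ∈ s, c j * W k (β j) N).re| ≤ ε * ‖W k 0 N‖) ∧
    (∀ α : ℝ, ∃ φ₁ φ₂ : ℝ → ℂ, Cutoff φ₁ ∧ Cutoff φ₂ ∧
      (∀ N : ℕ, 1 ≤ N → cexp (I * k * α) * W k α N = ((matrixSq φ₁ k N - matrixSq φ₂ k N) / 4 : ℝ)) ∧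
      ∀ ε : ℝ, 0 < ε → Mostly fun T =>
        ‖cexp (I * k * α) * shifted k α T T (2 * T) - ((zetaSq φ₁ k T - zetaSq φ₂ k T) / 4 : ℝ)‖ ≤
          ε * ∫ t in (0:ℝ)..(2 * T), ‖riemannZeta (1 / 2 + I * t)‖ ^ (2 * k)) ∧
    ∀ 𝒲 : ℝ → ℂ, (∀ α : ℝ, Tendsto (fun N : ℕ => W k α N) atTop (𝓝 (𝒲 α))) →
      (∀ φ : ℝ → ℂ, Cutoff φ → ∃ w : ℝ, Tendsto (fun N : ℕ => matrixSq φ k N) atTop (𝓝 w)) ∧
      ((∀ α : ℝ, Tendsto (fun T : ℝ => Q k α T) atTop (𝓝 (ak k * 𝒲 α))) ↔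
        ∀ φ : ℝ → ℂ, Cutoff φ → ∀ w : ℝ, Tendsto (fun N : ℕ => matrixSq φ k N) atTop (𝓝 w) →
          Tendsto (fun T : ℝ => zetaSq φ k T / (T * Real.log T ^ (k ^ 2))) atTop (𝓝 (ak k * w))) := by
  refine ⟨?_, ?_, ?_⟩
  · rintro φ ⟨h1, h2⟩ ε hε
    obtain ⟨K, hK, hexc⟩ := SmE_exc1 hk
    obtain ⟨s, r, al, ka, hS, hd⟩ := dictionary ⟨h1, h2⟩ k (ε := min (ε / K) ε) (by positivity)
    have hc : ∀ (j : ℤ) (w : ℂ), ((r j : ℂ) * (cexp ((ka j : ℂ) * I) * ro k (al j)) * w).re =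
        r j * (cexp ((ka j : ℂ) * I) * (ro k (al j) * w)).re := by
      intro j w
      rw [← Complex.re_ofReal_mul]
      congr 1; ring
    refine ⟨s, al, fun j => (r j : ℂ) * (cexp ((ka j : ℂ) * I) * ro k (al j)), ?_, fun N hN => ?_⟩
    · have h3 := hexc _ _ (by positivity) hS
      refine (mostly_of h3).mono fun T hT => ?_
      rw [← M_eq, Complex.re_sum]
      simp only [hc, window_eq, D_eq]
      refine hT.2.trans ?_
      have h4 := (mo_gr k).nn (2 * T) (by linarith [hT.1])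
      have h5 : K * min (ε / K) ε ≤ ε := by
        calc _ ≤ K * (ε / K) := by gcongr; exact min_le_left _ _
          _ = _ := by field_simp
      gcongr
    · rw [matrixSq_eq, Complex.re_sum]
      simp only [hc]
      refine (hd N hN).trans ?_
      have h4 : ‖Wk k 0 N‖ = ‖W k 0 N‖ := rfl
      rw [h4]
      gcongr
      exact min_le_right _ _
  · intro α
    obtain ⟨f, hf, -, -, hf1⟩ := exists_one k
    refine ⟨ps (cx f) k α 1, ps (cx f) k α (-1), ⟨(ps_TS hf k α 1).cd, (ps_TS hf k α 1).cs⟩,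
      ⟨(ps_TS hf k α (-1)).cd, (ps_TS hf k α (-1)).cs⟩, fun N hN => ?_, fun ε hε => ?_⟩
    · rw [matrixSq_eq, matrixSq_eq, dual_mat hf1 α hN, ro_eq]
      exact (Complex.conj_eq_iff_re.1 (Wk_real k hN α)).symm
    · have h1 := mostly_of (SmE_exc hk (fun ε hε => dual_neg hf hf1 α ε hε) (ε := ε / 2) (by positivity))
      have h2 := mostly_of (SmE_exc hk (fun ε hε => im_small k α hε) (ε := ε / 2) (by positivity))
      refine (h1.and h2).mono fun T hT => ?_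
      rw [← M_eq, ro_eq, window_eq, D_eq, D_eq]
      obtain ⟨z, hz⟩ : ∃ z, z = ro k α * Qd (zr k 0) (α / Real.log T) T := ⟨_, rfl⟩
      rw [← hz] at hT ⊢
      set x := (mD (ps (cx f) k α 1) k T - mD (ps (cx f) k α (-1)) k T) / 4 with hx
      have e : z - (x : ℂ) = (((-(x - z.re)) : ℝ) : ℂ) + ((z.im : ℝ) : ℂ) * I := by
        apply Complex.ext <;> simp
      rw [e]
      refine (norm_add_le _ _).trans ?_
      rw [norm_mul, Complex.norm_I, mul_one, Complex.norm_real, Complex.norm_real, Real.norm_eq_abs,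
        Real.norm_eq_abs, abs_neg]
      linarith [hT.1.2, hT.2.2]
  · intro 𝒲 hW
    have hW' : ∀ α : ℝ, Tendsto (fun N : ℕ => Wk k α N) atTop (𝓝 (𝒲 α)) := hW
    refine ⟨fun φ hφ => ?_, ?_, ?_⟩
    · simp only [matrixSq_eq]
      exact oN_exists hW' ⟨hφ.1, hφ.2⟩
    · intro hQ φ hφ w hw
      simp only [matrixSq_eq] at hw
      exact forward hW' (fun α => (hQ α).congr fun T => Q_eq k α T) ⟨hφ.1, hφ.2⟩ hw
    · intro hD α
      simp only [Q_eq]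
      refine backward hW' (fun φ hφ w hw => ?_) α
      exact hD φ ⟨hφ.cd, hφ.cs⟩ w (by simpa only [matrixSq_eq] using hw)

end Pool.Agent.Results.MP_069854_nt.LongPolynomials
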