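import Pool.Agent.K4H66.OL.I

set_option autoImplicit false

/-!
# Moments of zeta off the critical line determine the shifted moments on the critical line

For complex `α = a - i b` the quantity `Q_k(α,T)` of the problem is the `2k`-th shifted moment on the
line `Re s = 1/2 + b / log T`; in particular `Q_k(-i b, T)` is the normalised ordinary `2k`-th moment

`T⁻¹ (log T)^{-k²} ∫_0^T |ζ(1/2 + b / log T + it)|^{2k} dt`.

Let `A` be a set of complex shifts which is of one of the following kinds (`Determining`):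

* `A` has infinitely many points in some disc;
* `A` contains `-i β` for all `β ∈ S`, `S ⊆ (0,∞)` with `∑_{β ∈ S} 1/β = ∞` (Muntz), for instance
  `-i m, -2 i m, -3 i m, ...`, with `m` arbitrarily large;
* `A` contains a real lattice `c ℤ`, `0 < c < π / k`.

(1) Unconditionally, `α ↦ e^{ikα} Q_k(α,T)` is close, locally uniformly in the complex plane and up to
`ε (Q_k(0,T) + 1)`, to the Fourier-Laplace transform of a positive measure on `[-k,k]`, for all `T`
outside sets of measure `≤ C log² X` in `[X,2X]`.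
(2) Unconditionally, every `Q_k(α,T)`, for instance the moment on the critical line, is a fixed finite
linear combination of the `Q_k(a,T)`, `a ∈ A`, up to `ε (Q_k(0,T) + 1)`, for all such `T`, and
`W_k(α,N)` is the same linear combination of the `W_k(a,N)`, up to `ε W_k(0,N)`, for all `N`.
(3) If the conjectured asymptotics hold for the shifts in `A`, then they hold for all complex shifts; in
particular for all real shifts, which is Q1 for this `k`.

Proof. Let `F` be a smoothed form of `ζ^k` on the critical line. By Plancherel's theorem and a contour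
shift, the shifted moments on the lines near the critical line are the integrals of `e^{iαξ}` against the
spectral measure `|F^|²` (in `ξ = k + 4πw / log T`), which is concentrated on `[-k,k]` by the functional
equation and the Dirichlet series; local moments near `T` are controlled in the same way. The
exponentials with frequencies in `A` are complete in `C[-k,k]`, so the bound for the total mass and the
limits for all shifts follow from those for the shifts in `A`.
-/

namespace Pool.Agent.Results.MP_069854_nt.OffLineMoments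

open Complex MeasureTheory Filter Topology Set Pool.Agent.TH535.SM Pool.Agent.R446.KR Pool.Agent.K4H66.OL
open scoped ComplexConjugate Matrix FourierTransform

/-- The normalised shifted moment `Q_k(α,T)` of the problem, for complex `α`. -/
noncomputable def Q (k : ℕ) (α : ℂ) (T : ℝ) : ℂ :=
  (T : ℂ)⁻¹ * ((Real.log T : ℂ) ^ (k ^ 2))⁻¹ *
    ∫ t in (0:ℝ)..T, riemannZeta (1 / 2 + I * α / Real.log T + I * t) ^ k *
      riemannZeta (1 / 2 + I * α / Real.log T - I * t) ^ k

/-- The normalised Haar measure `dU` of `U(N)`. -/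
noncomputable def haar (N : ℕ) : Measure (Matrix.unitaryGroup (Fin N) ℂ) := Measure.haarMeasure ⊤

/-- The matrix integral `W_k(α,N)` of the problem, for complex `α`. -/
noncomputable def W (k : ℕ) (α : ℂ) (N : ℕ) : ℂ :=
  ((N : ℂ) ^ (k ^ 2))⁻¹ * ∫ U : Matrix.unitaryGroup (Fin N) ℂ,
    (1 - cexp (-(I * α / N)) • (U : Matrix (Fin N) (Fin N) ℂ)).det ^ k *
      (1 - cexp (-(I * α / N)) • (U : Matrix (Fin N) (Fin N) ℂ)ᴴ).det ^ k ∂(haar N)

/-- The limit `𝒲_k(α)` of `W_k(α,N)` as `N → ∞`. -/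
noncomputable def limW (k : ℕ) (α : ℂ) : ℂ := limUnder atTop (fun N : ℕ => W k α N)

/-- The number `d_k(n)` of ordered factorisations of `n` into `k` positive factors. -/
def dk (k n : ℕ) : ℕ := (Nat.finMulAntidiag k n).card

/-- The arithmetic constant `a_k`. -/
noncomputable def ak (k : ℕ) : ℝ := ∏' p : Nat.Primes, (1 - 1 / (p : ℝ)) ^ (k ^ 2) *
  ∑' m : ℕ, (dk k ((p : ℕ) ^ m) : ℝ) ^ 2 / (p : ℝ) ^ m

/-- `A` has infinitely many points in a disc, or contains `-i β` for all `β` in a set of positive numbers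
with divergent sum of reciprocals, or contains a real lattice of step less than `π / k`. -/
def Determining (k : ℕ) (A : Set ℂ) : Prop :=
  (∃ R : ℝ, (A ∩ Metric.closedBall 0 R).Infinite) ∨
  (∃ S : Set ℝ, (∀ β ∈ S, 0 < β) ∧ (¬ Summable fun β : S => (β : ℝ)⁻¹) ∧ ∀ β ∈ S, -(I * (β : ℂ)) ∈ A) ∨
  ∃ c : ℝ, 0 < c ∧ c * k < Real.pi ∧ ∀ m : ℤ, ((c * m : ℝ) : ℂ) ∈ A

lemma Q_eq (k : ℕ) (α : ℂ) (T : ℝ) : Q k α T = CC k α T / ((NN (k ^ 2) T : ℝ) : ℂ) := by
  unfold Q CC Cor NN
  have e : ∫ t in (0:ℝ)..T, riemannZeta (1 / 2 + I * α / Real.log T + I * t) ^ k *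
      riemannZeta (1 / 2 + I * α / Real.log T - I * t) ^ k =
      ∫ t in (0:ℝ)..T, zr k (-α.im / Real.log T) (t + α.re / Real.log T) *
        conj (zr k (-α.im / Real.log T) (t + -(α.re / Real.log T))) :=
    intervalIntegral.integral_congr fun t _ => integrandC k α (Real.log T) t
  rw [e, Complex.ofReal_mul, Complex.ofReal_pow, ← mul_inv]
  exact (div_eq_inv_mul _ _).symm

lemma Q_zero (k : ℕ) (T : ℝ) : (Q k 0 T).re = M (zr k 0) T / NN (k ^ 2) T := by
  rw [Q_eq, CC_zero, ← Complex.ofReal_div, Complex.ofReal_re]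

lemma determining {k : ℕ} {A : Set ℂ} (hA : Determining k A) : CplC A k := by
  refine sp_of fun α => ?_
  rcases hA with ⟨R, hR⟩ | ⟨S, h1, h2, h3⟩ | ⟨c, h1, h2, h3⟩
  · exact sp_infinite hR α
  · exact sp_muntz h1 h2 h3 α
  · exact sp_lattice h1 h2 h3 α

/-- the real shifts -/
lemma cplC_real (k : ℕ) : CplC (range (fun x : ℝ => (x : ℂ))) k := by
  refine sp_of fun α => sp_infinite (R := 1) ?_ α
  have h3 : (Icc (0:ℝ) 1).Infinite := Icc_infinite (by norm_num)
  refine (h3.image (Complex.ofReal_injective.injOn)).mono ?_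
  rintro _ ⟨x, hx, rfl⟩
  refine ⟨⟨x, rfl⟩, ?_⟩
  rw [mem_closedBall_zero_iff, Complex.norm_real, Real.norm_of_nonneg hx.1]
  exact hx.2

/-- (1) The shifted moments are close to transforms of positive measures on `[-k, k]`. -/
def PositiveMeasures (k : ℕ) : Prop :=
  ∀ R ε : ℝ, 0 ≤ R → 0 < ε → ∃ μ : ℝ → Measure ℝ,
    (∀ T : ℝ, IsFiniteMeasure (μ T) ∧ μ T (Icc (-(k : ℝ)) k)ᶜ = 0) ∧
    ∃ C X₀ : ℝ, ∀ X : ℝ, X₀ ≤ X → ∃ E : Set ℝ, MeasurableSet E ∧ E ⊆ Icc X (2 * X) ∧
      volume E ≤ ENNReal.ofReal (C * Real.log X ^ 2) ∧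
      ∀ T ∈ Icc X (2 * X), T ∉ E → ∀ α : ℂ, ‖α‖ ≤ R →
        ‖cexp (I * k * α) * Q k α T - ∫ ξ, cexp (I * α * ξ) ∂(μ T)‖ ≤ ε * ((Q k 0 T).re + 1)

/-- (2) Every shifted moment is nearly a finite linear combination of those with shifts in `A`. -/
def LinearRelations (k : ℕ) (A : Set ℂ) : Prop :=
  ∀ (α : ℂ) (ε : ℝ), 0 < ε → ∃ (s : Finset ℂ) (c : ℂ → ℂ), (∀ a ∈ s, a ∈ A) ∧
    (∀ N : ℕ, 1 ≤ N → ‖W k α N - ∑ a ∈ s, c a * W k a N‖ ≤ ε * ‖W k 0 N‖) ∧
    ∃ C X₀ : ℝ, ∀ X : ℝ, X₀ ≤ X → ∃ E : Set ℝ, MeasurableSet E ∧ E ⊆ Icc X (2 * X) ∧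
      volume E ≤ ENNReal.ofReal (C * Real.log X ^ 2) ∧
      ∀ T ∈ Icc X (2 * X), T ∉ E →
        ‖Q k α T - ∑ a ∈ s, c a * Q k a T‖ ≤ ε * ((Q k 0 T).re + 1)

/-- (3) The asymptotics for the shifts in `A` imply those for all complex shifts. -/
def AllShifts (k : ℕ) (A : Set ℂ) : Prop :=
  (∀ α : ℝ, ∃ x : ℂ, Tendsto (fun N : ℕ => W k α N) atTop (𝓝 x)) →
    (∀ α : ℂ, Tendsto (fun N : ℕ => W k α N) atTop (𝓝 (limW k α))) ∧
    ((∀ α ∈ A, Tendsto (fun T : ℝ => Q k α T) atTop (𝓝 (ak k * limW k α))) →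
      ∀ α : ℂ, Tendsto (fun T : ℝ => Q k α T) atTop (𝓝 (ak k * limW k α)))

lemma positiveMeasures (k : ℕ) : PositiveMeasures k := by
  intro R ε hR hε
  obtain ⟨u, C1, T0, hu, hC1, hT0, h1⟩ := measures k hR (ε := ε / 2) (by positivity)
  obtain ⟨G, K, D⟩ := zr_dat k (r := 0) (by norm_num)
  obtain ⟨C2, X0, hC2, hX0, h2⟩ := exc D (ε := min 1 (ε / (2 * (C1 + 1)))) (by positivity) (min_le_left _ _)
  classical
  refine ⟨fun T => if 1 ≤ T then nu k (Fn (H k u) T 0) (Real.log T) (NN (k ^ 2) T) else 0, fun T => ?_,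
    C2, max (max T0 X0) (max (Real.exp 1) (3 * C1 / ε)), fun X hX => ?_⟩
  · by_cases h : 1 ≤ T
    · simp only [if_pos h]
      have hu0 : |(0:ℝ)| ≤ u := by rw [abs_zero]; exact Nat.cast_nonneg u
      exact ⟨nu_fin k (Fn_decr k hu h hu0) _ _, nu_supp k _ _ _⟩
    · simp only [if_neg h]
      exact ⟨inferInstance, by simp⟩
  obtain ⟨E, e1, e2, e3, e4⟩ := h2 X (((le_max_right _ _).trans (le_max_left _ _)).trans hX)
  have hfin : volume E ≠ ⊤ :=
    ne_top_of_le_ne_top (by rw [Real.volume_Icc]; exact ENNReal.ofReal_ne_top) (measure_mono e2)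
  refine ⟨E, e1, e2, ?_, fun T hT hTE α hα => ?_⟩
  · rw [← ENNReal.ofReal_toReal hfin]
    exact ENNReal.ofReal_le_ofReal e3
  have hTT0 : T0 ≤ T := (((le_max_left _ _).trans (le_max_left _ _)).trans hX).trans hT.1
  have hX1 : Real.exp 1 ≤ T := (((le_max_left _ _).trans (le_max_right _ _)).trans hX).trans hT.1
  have hX2 : 3 * C1 / ε ≤ T := (((le_max_right _ _).trans (le_max_right _ _)).trans hX).trans hT.1
  have hT0' : 0 < T := by linarith
  have hT1 : 1 ≤ T := by linarith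
  have hL : 1 ≤ Real.log T := by rwa [Real.le_log_iff_exp_le hT0']
  have hN : T ≤ NN (k ^ 2) T := by
    unfold NN
    have h2 : (1:ℝ) ≤ Real.log T ^ (k ^ 2) := one_le_pow₀ hL
    nlinarith
  have hN0 : 0 < NN (k ^ 2) T := lt_of_lt_of_le hT0' hN
  have hu0 : |(0:ℝ)| ≤ u := by rw [abs_zero]; exact Nat.cast_nonneg u
  have hM := M_nonneg (zr k 0) (T := T) (by linarith)
  simp only [if_pos hT1]
  rw [nu_int k (Fn_decr k hu hT1 hu0) _ hN0, Q_eq, Q_zero]
  have e5 : cexp (I * k * α) * (CC k α T / ((NN (k ^ 2) T : ℝ) : ℂ)) -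
      (∫ w, cexp (I * α * (clip k (k + 4 * Real.pi * w / Real.log T) : ℝ)) *
        ((‖𝓕 (Fn (H k u) T 0) w‖ ^ 2 : ℝ) : ℂ)) / ((NN (k ^ 2) T : ℝ) : ℂ) =
      (XX k α T - ∫ w, cexp (I * α * (clip k (k + 4 * Real.pi * w / Real.log T) : ℝ)) *
        ((‖𝓕 (Fn (H k u) T 0) w‖ ^ 2 : ℝ) : ℂ)) / ((NN (k ^ 2) T : ℝ) : ℂ) := by
    unfold XX
    ring
  rw [e5, norm_div, Complex.norm_real, Real.norm_of_nonneg hN0.le, div_le_iff₀ hN0]
  have h3 := h1 T hTT0 α hα
  have h4 := e4 T hT hTE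
  have h5 : C1 * (1 + B (zr k 0) T) ≤ C1 * (1 + (min 1 (ε / (2 * (C1 + 1))) * M (zr k 0) T + 2)) := by gcongr
  have h6 : C1 * (min 1 (ε / (2 * (C1 + 1))) * M (zr k 0) T) ≤ ε / 2 * M (zr k 0) T := by
    rw [← mul_assoc]
    refine mul_le_mul_of_nonneg_right ?_ hM
    have h7 : min 1 (ε / (2 * (C1 + 1))) ≤ ε / (2 * (C1 + 1)) := min_le_right _ _
    rw [le_div_iff₀ (by positivity)] at h7
    have h8 : 0 ≤ min 1 (ε / (2 * (C1 + 1))) := by positivity
    nlinarith
  have h7 : ε * (M (zr k 0) T / NN (k ^ 2) T + 1) * NN (k ^ 2) T = ε * M (zr k 0) T + ε * NN (k ^ 2) T := by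
    field_simp
  rw [h7]
  rw [div_le_iff₀ hε] at hX2
  have h8 : ε * T ≤ ε * NN (k ^ 2) T := by gcongr
  linarith

/-- **Moments off the critical line determine the shifted moments.** -/
theorem result (k : ℕ) (A : Set ℂ) (hA : Determining k A) :
    PositiveMeasures k ∧ LinearRelations k A ∧ AllShifts k A := by
  have hC := determining hA
  refine ⟨positiveMeasures k, ?_, ?_⟩
  · intro α ε hε
    obtain ⟨s, c, h1, h2, C, X0, h3⟩ := commonC k hC α hε
    refine ⟨s, c, h1, h2, C, X0, fun X hX => ?_⟩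
    obtain ⟨E, e1, e2, e3, e4⟩ := h3 X hX
    refine ⟨E, e1, e2, e3, fun T hT hTE => ?_⟩
    have h := e4 T hT hTE
    rw [Q_zero]
    simp only [Q_eq]
    exact h
  · intro hW
    have hlimW : ∀ α : ℂ, Tendsto (fun N : ℕ => W k α N) atTop (𝓝 (limW k α)) := by
      intro α
      have h := WC_conv k (cplC_real k) ⟨0, by simp⟩ (by
        rintro _ ⟨x, rfl⟩
        exact hW x) α
      exact tendsto_nhds_limUnder h
    refine ⟨hlimW, fun hlim α => ?_⟩
    have h := rigid_zetaC k hC (ak k : ℂ) (limW k) hlimW (fun a ha => by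
      have := hlim a ha
      simp only [Q_eq] at this
      exact this) α
    simp only [Q_eq]
    exact h

end Pool.Agent.Results.MP_069854_nt.OffLineMoments
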