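import Pool.Agent.K4H66.HL.U

set_option autoImplicit false

/-!
# The shifted moments of zeta and the autocorrelation of one smooth Dirichlet polynomial

For `k ≥ 2` all the shifted moments `Q_k(α,T)` (total length `T^k` on the side of Dirichlet series) are
equivalent to the autocorrelation over `[T,2T]` of one smooth Dirichlet polynomial with the coefficients
`d_k(n)`, `T^(1-δ) ≤ n ≤ T^(k/2+δ)`.
-/

namespace Pool.Agent.Results.MP_069854_nt.OnePolynomialAllShifts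

open Complex MeasureTheory Filter Topology Set Pool.Agent.TH535.SM Pool.Agent.R446.KR Pool.Agent.K4H66.OL
  Pool.Agent.K4H66.HL
open scoped ComplexConjugate Matrix ContDiff

/-- `∫_A^B ζ(1/2 + iα/log T + it)^k ζ(1/2 + iα/log T - it)^k dt` -/
noncomputable def shifted (k : ℕ) (α T A B : ℝ) : ℂ :=
  ∫ t in A..B, riemannZeta (1 / 2 + I * α / Real.log T + I * t) ^ k *
    riemannZeta (1 / 2 + I * α / Real.log T - I * t) ^ k

/-- The normalised shifted moment `Q_k(α,T)` of the problem. -/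
noncomputable def Q (k : ℕ) (α T : ℝ) : ℂ :=
  (T : ℂ)⁻¹ * ((Real.log T : ℂ) ^ (k ^ 2))⁻¹ * shifted k α T 0 T

/-- The normalised Haar measure `dU` of `U(N)`. -/
noncomputable def haar (N : ℕ) : Measure (Matrix.unitaryGroup (Fin N) ℂ) := Measure.haarMeasure ⊤

/-- The matrix integral `W_k(α,N)` of the problem. -/
noncomputable def W (k : ℕ) (α : ℝ) (N : ℕ) : ℂ :=
  ((N : ℂ) ^ (k ^ 2))⁻¹ * ∫ U : Matrix.unitaryGroup (Fin N) ℂ,
    (1 - cexp (-(I * α / N)) • (U : Matrix (Fin N) (Fin N) ℂ)).det ^ k *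
      (1 - cexp (-(I * α / N)) • (U : Matrix (Fin N) (Fin N) ℂ)ᴴ).det ^ k ∂(haar N)

/-- The number `d_k(n)` of ordered factorisations of `n` into `k` positive factors. -/
def dk (k n : ℕ) : ℕ := (Nat.finMulAntidiag k n).card

/-- The arithmetic constant `a_k`. -/
noncomputable def ak (k : ℕ) : ℝ := ∏' p : Nat.Primes, (1 - 1 / (p : ℝ)) ^ (k ^ 2) *
  ∑' m : ℕ, (dk k ((p : ℕ) ^ m) : ℝ) ^ 2 / (p : ℝ) ^ m

/-- The Dirichlet polynomial `D(T,t) = Σ_n d_k(n) φ(log n / log T) n^(-1/2 - it)`. -/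
noncomputable def D (φ : ℝ → ℂ) (k : ℕ) (T t : ℝ) : ℂ :=
  ∑' n : ℕ, (dk k n : ℂ) * φ (Real.log n / Real.log T) * (n : ℂ) ^ (-(1 / 2 + I * t) : ℂ)

/-- Admissible cut-offs: smooth, of compact support, `|φ(x)|² + |φ(k - x)|² = 1` for `1 ≤ x ≤ k - 1`. -/
def Admissible (k : ℕ) (φ : ℝ → ℂ) : Prop :=
  ContDiff ℝ ∞ φ ∧ HasCompactSupport φ ∧ ∀ x ∈ Icc (1:ℝ) (k - 1), ‖φ x‖ ^ 2 + ‖φ (k - x)‖ ^ 2 = 1

/-- `Re e^{ikα} ∫_T^(2T) D(T, t + α/log T) conj D(T, t - α/log T) dt` -/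
noncomputable def auto (φ : ℝ → ℂ) (k : ℕ) (α T : ℝ) : ℝ :=
  (cexp (I * k * α) * ∫ t in T..(2 * T), D φ k T (t + α / Real.log T) *
    conj (D φ k T (t - α / Real.log T))).re

/-- `J(α) = a_k ∫_0^1 x^(k²-1)/(k²-1)! (|φ(x)|² + |φ(k-x)|² - 1) cos(α(k - 2x)) dx` -/
noncomputable def J (φ : ℝ → ℂ) (k : ℕ) (α : ℝ) : ℝ :=
  ak k * ∫ x in (0:ℝ)..1, x ^ (k ^ 2 - 1) / ((k ^ 2 - 1).factorial : ℝ) *
    ((‖φ x‖ ^ 2 + ‖φ (k - x)‖ ^ 2 - 1) * Real.cos (α * (k - 2 * x)))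

/-- The set of shifts is infinite in a bounded interval, or contains a lattice `c ℤ`, `0 < c < π / k`. -/
def Determining (k : ℕ) (A : Set ℝ) : Prop :=
  (∃ R : ℝ, (A ∩ Icc (-R) R).Infinite) ∨ ∃ c : ℝ, 0 < c ∧ c * k < Real.pi ∧ ∀ m : ℤ, c * m ∈ A

lemma ak_eq (k : ℕ) : ak k = H306R2.aF k := by
  unfold ak H306R2.aF
  refine tprod_congr fun p => ?_
  have h1 : (1 - 1 / ((p : ℕ) : ℝ)) ^ ((k : ℝ) ^ 2) = (1 - 1 / ((p : ℕ) : ℝ)) ^ (k ^ 2) := by
    rw [← Real.rpow_natCast _ (k ^ 2)]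
    push_cast
    rfl
  rw [h1]
  congr 1
  refine tsum_congr fun m => ?_
  have h2 : (dk k ((p : ℕ) ^ m) : ℝ) = H306R2.lc k m := by
    have h3 := W182.KO.dk_eq k ((p : ℕ) ^ m)
    rw [H306R2.dv_prime_pow _ p.2] at h3
    exact h3
  rw [h2, one_div, inv_pow, div_eq_mul_inv]

lemma zr_zk (k : ℕ) : zr k 0 = zk k := by
  funext t
  unfold zr zk ze
  simp

lemma shifted_eq (k : ℕ) (α T A B : ℝ) : shifted k α T A B =
    ∫ t in A..B, zr k 0 (t + α / Real.log T) * conj (zr k 0 (t + -(α / Real.log T))) := by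
  unfold shifted
  refine intervalIntegral.integral_congr fun t _ => ?_
  beta_reduce
  rw [zr_zk]
  unfold zk ze
  have e0 : (I * α / Real.log T : ℂ) = I * ((α / Real.log T : ℝ) : ℂ) := by push_cast; ring
  have e1 : (1 / 2 + I * ((α / Real.log T : ℝ) : ℂ) + I * t : ℂ) =
      1 / 2 + ((t + α / Real.log T : ℝ) : ℂ) * I := by push_cast; ring
  have e2 : (1 / 2 + I * ((α / Real.log T : ℝ) : ℂ) - I * t : ℂ) =
      conj (1 / 2 + ((t + -(α / Real.log T) : ℝ) : ℂ) * I) := by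
    rw [map_add, map_mul, conj_I, Complex.conj_ofReal, map_div₀, map_one, map_ofNat]
    push_cast
    ring
  rw [e0, e1, e2, riemannZeta_conj, map_pow]

lemma Q_eq (k : ℕ) (α T : ℝ) : Q k α T = Xs k α T := by
  unfold Q Xs
  rw [shifted_eq]
  unfold Cor NN
  rw [Complex.ofReal_mul, Complex.ofReal_pow, ← mul_inv]
  exact (div_eq_inv_mul _ _).symm

lemma Q_eq' (k : ℕ) (α T : ℝ) : Q k α T = Cor (zk k) (α / Real.log T) T / ((NN (k ^ 2) T : ℝ) : ℂ) := by
  rw [Q_eq]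
  unfold Xs
  rw [zr_zk]

lemma window_eq (k : ℕ) (α T : ℝ) : shifted k α T T (2 * T) = Qd (zr k 0) (α / Real.log T) T := by
  rw [shifted_eq, Qd_eq (zdat k (u := 1) le_rfl).zc]

lemma ro_eq (k : ℕ) (α : ℝ) : cexp (I * k * α) = ro k α := by
  unfold ro
  congr 1
  push_cast
  ring

lemma auto_eq (φ : ℝ → ℂ) (k : ℕ) (α T : ℝ) : auto φ k α T = (ro k α * Ac φ k α T).re := by
  unfold auto
  rw [ro_eq]
  rfl

lemma J_eq (φ : ℝ → ℂ) (k : ℕ) (α : ℝ) : J φ k α = Js φ k α := by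
  unfold J Js we g0
  rw [ak_eq]

lemma norm_eq (k : ℕ) (T : ℝ) : T * Real.log T ^ (k ^ 2) = NN (k ^ 2) T := rfl

/-- the moment is an integral of `|ζ|^(2k)` -/
lemma M_eq (k : ℕ) (T : ℝ) : M (zr k 0) T = ∫ t in (0:ℝ)..T, ‖riemannZeta (1 / 2 + I * t)‖ ^ (2 * k) := by
  unfold M
  refine intervalIntegral.integral_congr fun t _ => ?_
  beta_reduce
  rw [zr_zk]
  unfold zk ze
  rw [norm_pow, ← pow_mul, mul_comm k 2, mul_comm (t : ℂ) I]

/-- Let `k ≥ 2` and let `φ` be admissible.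
(1) Let `A` be a set of real shifts, `0 ∈ A`, and `q(α)` real numbers. Then `e^{ikα} Q_k(α,T) → q(α)` for all `α ∈ A`
if and only if `auto(α,T) / (T log^(k²) T) → q(α)/2 + J(α)` for all `α ∈ A`.
(2) Suppose that the limits `𝒲(α)` of `W_k(α,N)` exist, and let `A ∋ 0` be a determining set. Then
`Q_k(α,T) → a_k 𝒲(α)` for every real `α` (this is Q1 for `k`) if and only if
`auto(α,T) / (T log^(k²) T) → a_k Re(e^{ikα} 𝒲(α))/2 + J(α)` for all `α ∈ A`.
(3) For every `α` and `ε > 0`, `2 auto(α,T)` differs from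
`e^{ikα} ∫_T^(2T) ζ(1/2 + iα/log T + it)^k ζ(1/2 + iα/log T - it)^k dt + 2 J(α) T log^(k²) T` by at most
`ε ∫_0^(2T) |ζ|^(2k)`, for all large `T` except, in each `[X,2X]`, a set of measure at most `C √X log X`.
(4) For every `δ > 0` there is an admissible `φ` with values in `[0,1]` and support in `[1 - δ, k/2 + δ]`. -/
theorem result (k : ℕ) (hk : 2 ≤ k) :
    (∀ φ : ℝ → ℂ, Admissible k φ →
      (∀ A : Set ℝ, 0 ∈ A → ∀ q : ℝ → ℝ,
        ((∀ α ∈ A, Tendsto (fun T : ℝ => cexp (I * k * α) * Q k α T) atTop (𝓝 (q α : ℂ))) ↔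
          ∀ α ∈ A, Tendsto (fun T : ℝ => auto φ k α T / (T * Real.log T ^ (k ^ 2))) atTop (𝓝 (q α / 2 + J φ k α)))) ∧
      (∀ 𝒲 : ℝ → ℂ, (∀ α : ℝ, Tendsto (fun N : ℕ => W k α N) atTop (𝓝 (𝒲 α))) →
        ∀ A : Set ℝ, 0 ∈ A → Determining k A →
        ((∀ α : ℝ, Tendsto (fun T : ℝ => Q k α T) atTop (𝓝 (ak k * 𝒲 α))) ↔
          ∀ α ∈ A, Tendsto (fun T : ℝ => auto φ k α T / (T * Real.log T ^ (k ^ 2))) atTop
            (𝓝 (ak k * (cexp (I * k * α) * 𝒲 α).re / 2 + J φ k α)))) ∧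
      (∀ α ε : ℝ, 0 < ε → ∃ C X₀ : ℝ, ∀ X : ℝ, X₀ ≤ X → ∃ E : Set ℝ, MeasurableSet E ∧ E ⊆ Icc X (2 * X) ∧
        volume E ≤ ENNReal.ofReal (C * (√X * Real.log X)) ∧ ∀ T ∈ Icc X (2 * X) \ E,
          ‖((2 * auto φ k α T : ℝ) : ℂ) - (cexp (I * k * α) * shifted k α T T (2 * T) +
            ((2 * J φ k α * (T * Real.log T ^ (k ^ 2)) : ℝ) : ℂ))‖ ≤
            ε * ∫ t in (0:ℝ)..(2 * T), ‖riemannZeta (1 / 2 + I * t)‖ ^ (2 * k))) ∧
    ∀ δ : ℝ, 0 < δ → ∃ φ : ℝ → ℂ, Admissible k φ ∧ (∀ x, x ∉ Icc (1 - δ) (k / 2 + δ) → φ x = 0) ∧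
      ∀ x, ∃ r ∈ Icc (0:ℝ) 1, φ x = r := by
  constructor
  · rintro φ ⟨h1, h2, h3⟩
    have hT : TS φ := ⟨h1, h2⟩
    have main : ∀ A : Set ℝ, 0 ∈ A → ∀ q : ℝ → ℝ,
        ((∀ α ∈ A, Tendsto (fun T : ℝ => cexp (I * k * α) * Q k α T) atTop (𝓝 (q α : ℂ))) ↔
          ∀ α ∈ A, Tendsto (fun T : ℝ => auto φ k α T / (T * Real.log T ^ (k ^ 2))) atTop (𝓝 (q α / 2 + J φ k α))) := by
      intro A h0 q
      have h := shift_iff hk hT h3 h0 q
      simp only [ro_eq, Q_eq, auto_eq, J_eq, norm_eq]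
      exact h
    refine ⟨main, ?_, ?_⟩
    · intro 𝒲 hW A h0 hA
      have hreal : ∀ α : ℝ, (((cexp (I * k * α) * 𝒲 α).re : ℝ) : ℂ) = cexp (I * k * α) * 𝒲 α := by
        intro α
        refine Complex.conj_eq_iff_re.1 ?_
        have l1 : Tendsto (fun N : ℕ => cexp (I * k * α) * W k α N) atTop (𝓝 (cexp (I * k * α) * 𝒲 α)) :=
          (hW α).const_mul _
        have l2 : Tendsto (fun N : ℕ => conj (cexp (I * k * α) * W k α N)) atTop
            (𝓝 (conj (cexp (I * k * α) * 𝒲 α))) := (Complex.continuous_conj.tendsto _).comp l1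
        refine tendsto_nhds_unique l2 (l1.congr' ?_)
        filter_upwards [eventually_ge_atTop 1] with N hN
        rw [ro_eq]
        exact (Wk_real k hN α).symm
      have hne : ∀ α : ℝ, cexp (I * k * α) ≠ 0 := fun α => Complex.exp_ne_zero _
      have hq : ∀ α : ℝ, ((ak k * (cexp (I * k * α) * 𝒲 α).re : ℝ) : ℂ) = cexp (I * k * α) * (ak k * 𝒲 α) := by
        intro α
        rw [Complex.ofReal_mul, hreal]
        ring
      have h4 := main A h0 (fun α => ak k * (cexp (I * k * α) * 𝒲 α).re)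
      rw [← h4]
      constructor
      · intro h α _
        rw [hq]
        exact (h α).const_mul _
      · intro h
        have hC : Cpl A k := by
          rcases hA with ⟨R, hR⟩ | ⟨c, c1, c2, c3⟩
          · exact cpl_of_infinite hR
          · exact cpl_of_lattice c1 c2 c3
        intro α
        have h5 := rigid_zeta k hC h0 (by simp [Real.pi_pos]) (ak k : ℂ) 𝒲 hW (fun a ha => by
          have h6 := h a ha
          rw [hq] at h6
          have h7 := h6.const_mul (cexp (I * k * a))⁻¹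
          rw [← mul_assoc, inv_mul_cancel₀ (hne a), one_mul] at h7
          refine h7.congr fun T => ?_
          rw [← mul_assoc, inv_mul_cancel₀ (hne a), one_mul, Q_eq']) α
        simp only [Q_eq']
        exact h5
    · intro α ε hε
      obtain ⟨C1, X1, hC1, hX1, m1⟩ := SmE_exc hk (fun ε hε => master_shift hk hT h3 α hε) (ε := ε / 2) (by positivity)
      obtain ⟨C2, X2, hC2, hX2, m2⟩ := SmE_exc hk (fun ε hε => im_small k α hε) (ε := ε / 2) (by positivity)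
      refine ⟨C1 + C2, max X1 X2, fun X hX => ?_⟩
      obtain ⟨E1, a1, a2, a3, a4⟩ := m1 X ((le_max_left _ _).trans hX)
      obtain ⟨E2, b1, b2, b3, b4⟩ := m2 X ((le_max_right _ _).trans hX)
      refine ⟨E1 ∪ E2, a1.union b1, union_subset a2 b2, ?_, fun T hTE => ?_⟩
      · have hEf : volume (E1 ∪ E2) ≠ ⊤ := ne_top_of_le_ne_top
          (by rw [Real.volume_Icc]; exact ENNReal.ofReal_ne_top) (measure_mono (union_subset a2 b2))
        rw [← ENNReal.ofReal_toReal hEf]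
        refine ENNReal.ofReal_le_ofReal ?_
        have : (volume : Measure ℝ).real (E1 ∪ E2) ≤ volume.real E1 + volume.real E2 := measureReal_union_le _ _
        refine this.trans ?_
        linarith
      · have hT1 : T ∉ E1 := fun h => hTE.2 (Or.inl h)
        have hT2 : T ∉ E2 := fun h => hTE.2 (Or.inr h)
        have c1 := a4 T hTE.1 hT1
        have c2 := b4 T hTE.1 hT2
        rw [ro_eq, window_eq, auto_eq, J_eq, norm_eq, ← M_eq]
        obtain ⟨z, hz⟩ : ∃ z, z = ro k α * Qd (zr k 0) (α / Real.log T) T := ⟨_, rfl⟩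
        rw [← hz] at c1 c2 ⊢
        obtain ⟨x, hx⟩ : ∃ x, x = (ro k α * Ac φ k α T).re := ⟨_, rfl⟩
        rw [← hx] at c1 ⊢
        have e : ((2 * x : ℝ) : ℂ) - (z + ((2 * Js φ k α * NN (k ^ 2) T : ℝ) : ℂ)) =
            ((2 * x - z.re - 2 * Js φ k α * NN (k ^ 2) T : ℝ) : ℂ) - ((z.im : ℝ) : ℂ) * I := by
          apply Complex.ext <;> simp
          ring
        rw [e]
        refine (norm_sub_le _ _).trans ?_
        rw [norm_mul, Complex.norm_I, mul_one, Complex.norm_real, Complex.norm_real, Real.norm_eq_abs,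
          Real.norm_eq_abs]
        linarith
  · intro δ hδ
    obtain ⟨f, f1, f2, f3, f4⟩ := exists_cut hk hδ
    refine ⟨fun x => (f x : ℂ), ⟨?_, ?_, ?_⟩, ?_, ?_⟩
    · exact Complex.ofRealCLM.contDiff.comp f1
    · refine HasCompactSupport.intro (isCompact_Icc (a := 1 - δ) (b := k / 2 + δ)) fun x hx => ?_
      rw [f2 x hx, ofReal_zero]
    · intro x hx
      rw [Complex.norm_real, Complex.norm_real, Real.norm_eq_abs, Real.norm_eq_abs, sq_abs, sq_abs]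
      exact f4 x hx
    · intro x hx
      show ((f x : ℝ) : ℂ) = 0
      rw [f2 x hx, ofReal_zero]
    · exact fun x => ⟨f x, f3 x, rfl⟩

end Pool.Agent.Results.MP_069854_nt.OnePolynomialAllShifts
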